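import Pool.Agent.U659.MT.Lift
import Pool.Agent.Y335.FL.Main
import Pool.Agent.H168DD.TB

/-!
# Matchings with 63 edges in minimal counterexamples

In a graph of girth at least twelve without bridges in which all degrees are at least three (apart
from isolated vertices) there are 63 disjoint edges.
-/

set_option autoImplicit false
set_option linter.unusedSectionVars false

namespace Pool.Agent.U659.MT

open Finset Pool.Agent.TH676.Z Pool.Agent.Y335.FL Pool.Agent.Y358.IN

variable {V E : Type} [Fintype V] [DecidableEq V] [Fintype E] [DecidableEq E]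

/-- the proper edges with both ends in `X` -/
def inn (s d : E → V) (X : Finset V) : Finset E :=
  univ.filter (fun e => s e ≠ d e ∧ s e ∈ X ∧ d e ∈ X)

theorem mem_inn {s d : E → V} {X : Finset V} {e : E} :
    e ∈ inn s d X ↔ s e ≠ d e ∧ s e ∈ X ∧ d e ∈ X := by simp [inn]

/-- counting the ends of edges in `X` -/
theorem handshake (s d : E → V) (X : Finset V) :
    ∑ x ∈ X, dg s d x = 2 * (inn s d X).card + (crs s d X).card := by
  classical
  have h1 : ∀ x, dg s d x = ∑ e, if (s e ≠ d e ∧ (s e = x ∨ d e = x)) then 1 else 0 := by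
    intro x
    unfold dg
    rw [card_filter]
  have h2 : (inn s d X).card = ∑ e, if (s e ≠ d e ∧ s e ∈ X ∧ d e ∈ X) then 1 else 0 := by
    unfold inn
    rw [card_filter]
  have h3 : (crs s d X).card = ∑ e, if ¬ (s e ∈ X ↔ d e ∈ X) then 1 else 0 := by
    unfold crs
    rw [card_filter]
  rw [h2, h3, mul_sum, ← sum_add_distrib, sum_congr rfl (fun x _ => h1 x), sum_comm]
  refine sum_congr rfl fun e _ => ?_
  by_cases hne : s e = d e
  · simp [hne]
  · have h4 : ∀ x ∈ X, (if (s e ≠ d e ∧ (s e = x ∨ d e = x)) then 1 else 0) =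
        (if s e = x then 1 else 0) + (if d e = x then 1 else 0) := by
      intro x _
      by_cases a : s e = x
      · have b : ¬ d e = x := fun h => hne (a.trans h.symm)
        rw [if_pos ⟨hne, Or.inl a⟩, if_pos a, if_neg b]
      · by_cases b : d e = x
        · rw [if_pos ⟨hne, Or.inr b⟩, if_neg a, if_pos b]
        · rw [if_neg (fun h => h.2.elim a b), if_neg a, if_neg b]
    rw [sum_congr rfl h4, sum_add_distrib, sum_ite_eq, sum_ite_eq]
    by_cases a : s e ∈ X <;> by_cases b : d e ∈ X <;> simp [hne, a, b]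

/-- a set with at most 125 vertices spans few edges -/
theorem few_edges {s d : E → V} (hgi : Girth (Adj s d) 12) (hP : NoPar s d) (n : ℕ) :
    ∀ X : Finset V, X.card = n → X.Nonempty → n ≤ 125 → (inn s d X).card + 2 ≤ 2 * X.card := by
  classical
  have hsy : ∀ a b, Adj s d a b → Adj s d b a := fun a b h => GiAux.adj_symm h
  have hir : ∀ a, ¬ Adj s d a a := fun a h => h.1 rfl
  induction n using Nat.strong_induction_on with
  | _ n ih =>
    intro X hX hne hn
    obtain ⟨v, hv, hv2⟩ : ∃ v ∈ X, (X.filter (Adj s d v)).card ≤ 2 := by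
      by_contra hcon
      push Not at hcon
      obtain ⟨y0, hy0⟩ := hne
      have hnb : ∀ x ∈ X, ∃ a b c, (Adj s d x a ∧ a ∈ X) ∧ (Adj s d x b ∧ b ∈ X) ∧
          (Adj s d x c ∧ c ∈ X) ∧ a ≠ b ∧ a ≠ c ∧ b ≠ c := by
        intro x hx
        obtain ⟨a, ha, b, hb, c, hc, hab, hac, hbc⟩ := two_lt_card.1 (hcon x hx)
        rw [mem_filter] at ha hb hc
        exact ⟨a, b, c, ⟨ha.2, ha.1⟩, ⟨hb.2, hb.1⟩, ⟨hc.2, hc.1⟩, hab, hac, hbc⟩
      have h5 := moore V (fun a b => Adj s d a b ∧ a ∈ X ∧ b ∈ X)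
        (fun a b h => ⟨hsy a b h.1, h.2.2, h.2.1⟩) (fun a h => hir a h.1)
        (fun k hk v hv h => hgi k hk v hv (fun i => (h i).1))
        (fun x y h => by
          obtain ⟨a, b, c, ha, hb, hc, hab, hac, hbc⟩ := hnb x h.2.1
          exact ⟨a, b, c, ⟨ha.1, h.2.1, ha.2⟩, ⟨hb.1, h.2.1, hb.2⟩, ⟨hc.1, h.2.1, hc.2⟩,
            hab, hac, hbc⟩)
        (by
          obtain ⟨a, _, _, ha, _⟩ := hnb y0 hy0
          exact ⟨y0, a, ha.1, hy0, ha.2⟩)
      have h6 : (univ.filter (fun v => ∃ y, Adj s d v y ∧ v ∈ X ∧ y ∈ X)) ⊆ X := by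
        intro v hv
        obtain ⟨_, y, hy⟩ := mem_filter.1 hv
        exact hy.2.1
      have h7 := card_le_card h6
      omega
    -- the edges of `X` at `v`
    set Q := (inn s d X).filter (fun e => s e = v ∨ d e = v) with hQ
    have hQ2 : Q.card ≤ 2 := by
      refine le_trans ?_ hv2
      refine card_le_card_of_injOn (fun e => if s e = v then d e else s e) ?_ ?_
      · intro e he
        obtain ⟨h1, h2⟩ := mem_filter.1 (mem_coe.1 he)
        obtain ⟨h3, h4, h5⟩ := mem_inn.1 h1
        rw [mem_coe, mem_filter]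
        by_cases hs : s e = v
        · simp only [hs, if_true]
          exact ⟨h5, fun h => h3 (hs.trans h), e, Or.inl ⟨hs, rfl⟩⟩
        · have hd := h2.resolve_left hs
          simp only [hs, if_false]
          exact ⟨h4, fun h => hs h.symm, e, Or.inr ⟨rfl, hd⟩⟩
      · intro e he e' he' hee
        obtain ⟨h1, h2⟩ := mem_filter.1 (mem_coe.1 he)
        obtain ⟨h1', h2'⟩ := mem_filter.1 (mem_coe.1 he')
        have h3 := (mem_inn.1 h1).1
        have h3' := (mem_inn.1 h1').1
        simp only at hee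
        have key : ∀ e : E, s e ≠ d e → (s e = v ∨ d e = v) →
            v ≠ (if s e = v then d e else s e) ∧
              Jn s d e v (if s e = v then d e else s e) := by
          intro e h3 h2
          by_cases hs : s e = v
          · simp only [hs, if_true]
            exact ⟨fun h => h3 (hs.trans h), Or.inl ⟨hs, rfl⟩⟩
          · simp only [hs, if_false]
            exact ⟨fun h => hs h.symm, Or.inr ⟨rfl, h2.resolve_left hs⟩⟩
        obtain ⟨k1, k2⟩ := key e h3 h2
        obtain ⟨k3, k4⟩ := key e' h3' h2'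
        rw [← hee] at k4
        exact hP e e' _ _ k1 k2 k4
    have hsub : inn s d X ⊆ inn s d (X.erase v) ∪ Q := by
      intro e he
      obtain ⟨h3, h4, h5⟩ := mem_inn.1 he
      rw [mem_union]
      by_cases hev : s e = v ∨ d e = v
      · exact Or.inr (mem_filter.2 ⟨he, hev⟩)
      · push Not at hev
        exact Or.inl (mem_inn.2 ⟨h3, mem_erase.2 ⟨hev.1, h4⟩, mem_erase.2 ⟨hev.2, h5⟩⟩)
    have hc := (card_le_card hsub).trans (card_union_le _ _)
    have hXv : (X.erase v).card = X.card - 1 := card_erase_of_mem hv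
    have hpos : 0 < X.card := card_pos.2 hne
    rcases (X.erase v).eq_empty_or_nonempty with h0 | h0
    · -- one vertex
      have hX1 : X = {v} := by
        rw [← insert_erase hv, h0]
        rfl
      have : inn s d X = ∅ := by
        rw [eq_empty_iff_forall_notMem]
        intro e he
        obtain ⟨h3, h4, h5⟩ := mem_inn.1 he
        rw [hX1, mem_singleton] at h4 h5
        exact h3 (h4.trans h5.symm)
      rw [this, card_empty]
      omega
    · have := ih (X.card - 1) (by omega) (X.erase v) hXv h0 (by omega)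
      omega

/-- the bound for odd sets -/
theorem odd_bound {s d : E → V} (hgi : Girth (Adj s d) 12) (h3 : Three (Adj s d))
    (hP : NoPar s d) (hb : Br s d ∅ ∅) {D : ℕ} (hD : ∀ x, dg s d x ≤ D) (hD3 : 3 ≤ D)
    {O : Finset V} (hO : Odd O.card) (hO2 : O.card ≤ 125) (hne : ∀ x ∈ O, ∃ y, Adj s d x y) :
    2 * (inn s d O).card + D ≤ D * O.card := by
  have hpos : 0 < O.card := by obtain ⟨k, hk⟩ := hO; omega
  rcases Nat.lt_or_ge D 4 with h4 | h4
  · have hDe : D = 3 := by omega
    subst hDe
    have h5 : ∑ x ∈ O, dg s d x = 3 * O.card := by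
      rw [sum_congr rfl (fun x hx => ?_), sum_const, smul_eq_mul, mul_comm]
      obtain ⟨y, hy⟩ := hne x hx
      exact le_antisymm (hD x) (Ord.three_dg h3 hy)
    rw [handshake] at h5
    have h6 : (crs s d O).card ≠ 1 := by
      have := hb O (disjoint_empty_right _)
      rwa [sdiff_empty] at this
    obtain ⟨k, hk⟩ := hO
    omega
  · have h5 := few_edges hgi hP O.card O rfl (card_pos.1 hpos) hO2
    have h6 : 4 * O.card + D ≤ D * O.card + 4 := by
      obtain ⟨k, hk⟩ : ∃ k, O.card = k + 1 := ⟨O.card - 1, by omega⟩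
      rw [hk, mul_add, mul_add]
      have : 4 * k ≤ D * k := Nat.mul_le_mul_right _ h4
      omega
    omega

/-- the degrees are small compared with the number of edges -/
theorem dg_le {s d : E → V} (hgi : Girth (Adj s d) 12) (h3 : Three (Adj s d))
    (hP : NoPar s d) (x : V) : 63 * dg s d x ≤ (univ.filter (fun e => s e ≠ d e)).card := by
  have h1 := edge62_all V E s d x hP hgi h3
  have h2 := (split V E s d ∅ hP).2 x
  have h4 : dg s d x ≤ (Ns s d x).card := Splitx.card_Is_le hP x
  omega

/-- **63 disjoint edges** -/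
theorem big_matching {s d : E → V} (hgi : Girth (Adj s d) 12) (h3 : Three (Adj s d))
    (hP : NoPar s d) (hb : Br s d ∅ ∅) {e0 : E} (he0 : s e0 ≠ d e0) :
    ∃ F : Finset (Finset V), 63 ≤ F.card ∧ (∀ X ∈ F, ∃ x y, Adj s d x y ∧ X = {x, y}) ∧
      ∀ X ∈ F, ∀ Y ∈ F, X ≠ Y → Disjoint X Y := by
  classical
  let G : SimpleGraph V :=
    { Adj := Adj s d
      symm := ⟨fun a b h => GiAux.adj_symm h⟩
      loopless := ⟨fun a h => h.1 rfl⟩ }
  set T : Finset V := univ.filter (fun v => ∃ y, Adj s d v y) with hT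
  have hTm : ∀ x, x ∈ T ↔ ∃ y, Adj s d x y := fun x => by simp [hT]
  have ha0 : Adj s d (s e0) (d e0) := ⟨he0, e0, Or.inl ⟨rfl, rfl⟩⟩
  have hn : 126 ≤ T.card := moore V (Adj s d) (fun a b h => GiAux.adj_symm h)
    (fun a h => h.1 rfl) hgi h3 ⟨_, _, ha0⟩
  set D := univ.sup (dg s d) with hDdef
  have hD : ∀ x, dg s d x ≤ D := fun x => le_sup (mem_univ x)
  have hD3 : 3 ≤ D := (Ord.three_dg h3 ha0).trans (hD _)
  obtain ⟨x0, _, hx0⟩ := exists_mem_eq_sup univ ⟨s e0, mem_univ _⟩ (dg s d)
  set P := univ.filter (fun e => s e ≠ d e) with hPdef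
  have hm : 63 * D ≤ P.card := by
    rw [hDdef, hx0]
    exact dg_le hgi h3 hP x0
  obtain ⟨U, m, hUT, hU, hm2⟩ := H168DD.tutte_berge G T (T.card - 126)
    ⟨T.card - 63, by omega⟩ (by
    intro A F hAT hodd hdisj hsub hcl
    by_contra hlt
    push Not at hlt
    have hTA : ∀ O ∈ F, Disjoint O A := by
      intro O hO
      rw [disjoint_left]
      intro x hx hx'
      exact (mem_sdiff.1 (hsub O hO hx)).2 hx'
    set B := F.biUnion id with hB
    have hBc : B.card = ∑ O ∈ F, O.card := by
      rw [hB, card_biUnion]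
      · rfl
      · intro O hO O' hO' h
        exact hdisj O hO O' hO' h
    have hBT : B ⊆ T \ A := by
      intro x hx
      rw [hB, mem_biUnion] at hx
      obtain ⟨O, hO, hx⟩ := hx
      exact hsub O hO hx
    set R := (T \ A) \ B with hR
    have hRc : R.card + B.card + A.card = T.card := by
      have h1 : R.card + B.card = (T \ A).card := card_sdiff_add_card_eq_card hBT
      have h2 : (T \ A).card + A.card = T.card := card_sdiff_add_card_eq_card hAT
      omega
    have hpos : ∀ O ∈ F, 1 ≤ O.card := by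
      intro O hO
      obtain ⟨k, hk⟩ := hodd O hO
      omega
    have hO125 : ∀ O ∈ F, O.card ≤ 125 := by
      intro O hO
      have h1 : ∑ O' ∈ F.erase O, O'.card + O.card = B.card := by
        rw [hBc, sum_erase_add _ _ hO]
      have h2 : (F.erase O).card ≤ ∑ O' ∈ F.erase O, O'.card := by
        have := card_nsmul_le_sum (F.erase O) (fun O' => O'.card) 1
          (fun O' hO' => hpos O' (mem_of_mem_erase hO'))
        simpa using this
      rw [card_erase_of_mem hO] at h2
      have h3 : 0 < F.card := card_pos.2 ⟨O, hO⟩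
      obtain ⟨k, hk⟩ := hodd O hO
      omega
    have hOb : ∀ O ∈ F, 2 * (inn s d O).card + D ≤ D * O.card := by
      intro O hO
      refine odd_bound hgi h3 hP hb hD hD3 (hodd O hO) (hO125 O hO) ?_
      intro x hx
      exact (hTm x).1 (mem_sdiff.1 (hsub O hO hx)).1
    have hsum : 2 * ∑ O ∈ F, (inn s d O).card + D * F.card ≤ D * B.card := by
      have := sum_le_sum hOb
      rw [sum_add_distrib, ← mul_sum, sum_const, smul_eq_mul, ← mul_sum, ← hBc,
        mul_comm F.card] at this
      exact this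
    have hRb : 2 * (inn s d R).card ≤ D * R.card := by
      have h1 := handshake s d R
      have h2 : ∑ x ∈ R, dg s d x ≤ R.card • D := sum_le_card_nsmul _ _ _ (fun x _ => hD x)
      rw [smul_eq_mul, mul_comm] at h2
      omega
    have hAb : ∑ x ∈ A, dg s d x ≤ D * A.card := by
      have h2 : ∑ x ∈ A, dg s d x ≤ A.card • D := sum_le_card_nsmul _ _ _ (fun x _ => hD x)
      rwa [smul_eq_mul, mul_comm] at h2
    -- every edge
    have hcov : P ⊆ (A.biUnion (Ord.sg s d) ∪ F.biUnion (inn s d)) ∪ inn s d R := by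
      intro e he
      have hne : s e ≠ d e := (mem_filter.1 he).2
      rw [mem_union, mem_union, mem_biUnion, mem_biUnion]
      by_cases hsA : s e ∈ A
      · exact Or.inl (Or.inl ⟨s e, hsA, Ord.mem_sg.2 ⟨hne, Or.inl rfl⟩⟩)
      by_cases hdA : d e ∈ A
      · exact Or.inl (Or.inl ⟨d e, hdA, Ord.mem_sg.2 ⟨hne, Or.inr rfl⟩⟩)
      have hsT : s e ∈ T := (hTm _).2 ⟨d e, hne, e, Or.inl ⟨rfl, rfl⟩⟩
      have hdT : d e ∈ T := (hTm _).2 ⟨s e, hne.symm, e, Or.inr ⟨rfl, rfl⟩⟩
      have hadj : G.Adj (s e) (d e) := ⟨hne, e, Or.inl ⟨rfl, rfl⟩⟩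
      by_cases hsB : s e ∈ B
      · rw [hB, mem_biUnion] at hsB
        obtain ⟨O, hO, hsO⟩ := hsB
        refine Or.inl (Or.inr ⟨O, hO, mem_inn.2 ⟨hne, hsO, ?_⟩⟩)
        exact (hcl O hO _ hsO _ hdT hadj).resolve_right hdA
      · by_cases hdB : d e ∈ B
        · rw [hB, mem_biUnion] at hdB
          obtain ⟨O, hO, hdO⟩ := hdB
          refine Or.inl (Or.inr ⟨O, hO, mem_inn.2 ⟨hne, ?_, hdO⟩⟩)
          exact (hcl O hO _ hdO _ hsT hadj.symm).resolve_right hsA
        · refine Or.inr (mem_inn.2 ⟨hne, ?_, ?_⟩)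
          · exact mem_sdiff.2 ⟨mem_sdiff.2 ⟨hsT, hsA⟩, hsB⟩
          · exact mem_sdiff.2 ⟨mem_sdiff.2 ⟨hdT, hdA⟩, hdB⟩
    have hP1 : P.card ≤ ∑ x ∈ A, dg s d x + ∑ O ∈ F, (inn s d O).card + (inn s d R).card := by
      refine (card_le_card hcov).trans ((card_union_le _ _).trans ?_)
      refine Nat.add_le_add_right ((card_union_le _ _).trans ?_) _
      exact Nat.add_le_add card_biUnion_le card_biUnion_le
    have hfin : D * (A.card + T.card) ≤ D * (F.card + 125) :=
      Nat.mul_le_mul_left _ (by omega)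
    have hTc : D * T.card = D * R.card + D * B.card + D * A.card := by
      rw [← hRc, mul_add, mul_add]
    rw [mul_add, mul_add] at hfin
    omega)
  refine ⟨(T \ U).image (fun x => {x, m x}), ?_, ?_, ?_⟩
  · have h1 := card_sdiff_add_card_eq_card hUT
    have h2 : (T \ U).card ≤ 2 * ((T \ U).image (fun x => ({x, m x} : Finset V))).card := by
      refine card_le_mul_card_image _ _ ?_
      intro X hX
      obtain ⟨x, hx, rfl⟩ := mem_image.1 hX
      refine le_trans (card_le_card (t := {x, m x}) ?_) card_le_two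
      intro y hy
      have := (mem_filter.1 hy).2
      rw [← this]
      exact mem_insert_self _ _
    omega
  · intro X hX
    obtain ⟨x, hx, rfl⟩ := mem_image.1 hX
    exact ⟨x, m x, (hm2 x hx).2.2, rfl⟩
  · intro X hX Y hY hXY
    obtain ⟨x, hx, rfl⟩ := mem_image.1 hX
    obtain ⟨y, hy, rfl⟩ := mem_image.1 hY
    rw [disjoint_left]
    intro z hz hz'
    apply hXY
    have hxm := (hm2 x hx).2.1
    have hym := (hm2 y hy).2.1
    have key : ∀ z w : V, m (m z) = z → w ∈ ({z, m z} : Finset V) →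
        ({z, m z} : Finset V) = {w, m w} := by
      intro z w h1 h2
      rw [mem_insert, mem_singleton] at h2
      rcases h2 with rfl | rfl
      · rfl
      · rw [h1, pair_comm]
    rw [key x z hxm hz, key y z hym hz']

/-- **Main step.** -/
theorem flow_of_ClP {V E : Type} [Fintype V] [DecidableEq V] [Fintype E] [DecidableEq E]
    (src dst : E → V) (hcl : ClP 62 src dst) (hbr : Br src dst ∅ ∅) : FlowOn src dst ∅ ∅ := by
  classical
  by_contra hn
  obtain ⟨s, d, hS, hM⟩ := exists_minC (ccP 62) src dst hcl hbr hn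
  have hc := contract_all
  have h3 := threeC hc hM
  have hgi := girthC hc hM
  by_cases hl : ∀ e, s e = d e
  · exact hM.nf (flow_of_loops hl)
  push Not at hl
  obtain ⟨e, he⟩ := hl
  obtain ⟨F, h63, hF, hdis⟩ := big_matching hgi h3
    (fun e e' x y hxy h h' => no_par hc hM hxy h h') hM.br he
  have := hS F (fun X hX => by
    obtain ⟨x, y, hxy, rfl⟩ := hF X hX
    refine ⟨conn_pair hxy, x, mem_insert_self _ _, y, mem_insert_of_mem (mem_singleton_self _),
      hxy.1, Ord.three_dg h3 hxy, Ord.three_dg h3 (GiAux.adj_symm hxy)⟩) hdis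
  omega

end Pool.Agent.U659.MT
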