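import Pool.Agent.Y358.IN.Base
import Pool.Agent.Y335.FL.Order

/-!
# Disjoint connected sets with two vertices of degree at least three

The class of the graphs in which there are no 63 pairwise disjoint connected sets of vertices which
contain two vertices of degree at least three is closed under contractions.
-/

set_option autoImplicit false
set_option linter.unusedSectionVars false

namespace Pool.Agent.U659.MT

open Finset Pool.Agent.TH676.Z Pool.Agent.Y335.FL Pool.Agent.Y358.IN

variable {V E : Type} [Fintype V] [DecidableEq V] [Fintype E] [DecidableEq E]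

/-- `X` is connected: an edge leads from every proper part to the rest -/
def Conn (src dst : E → V) (X : Finset V) : Prop :=
  ∀ Y ⊆ X, Y.Nonempty → Y ≠ X →
    ∃ e, (src e ∈ Y ∧ dst e ∈ X ∧ dst e ∉ Y) ∨ (dst e ∈ Y ∧ src e ∈ X ∧ src e ∉ Y)

/-- connected, with two vertices of degree at least three -/
def Big (src dst : E → V) (X : Finset V) : Prop :=
  Conn src dst X ∧ ∃ x ∈ X, ∃ y ∈ X, x ≠ y ∧ 3 ≤ dg src dst x ∧ 3 ≤ dg src dst y

/-- the class -/
def ClP (N : ℕ) (src dst : E → V) : Prop := ∀ F : Finset (Finset V), (∀ X ∈ F, Big src dst X) →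
  (∀ X ∈ F, ∀ Y ∈ F, X ≠ Y → Disjoint X Y) → F.card ≤ N

theorem ctr_ne_v {u v : V} (huv : u ≠ v) (x : V) : ctr u v x ≠ v := by
  intro hy
  unfold ctr at hy
  split_ifs at hy with h
  · exact huv hy
  · exact h hy

theorem conn_pair {src dst : E → V} {x y : V} (h : Adj src dst x y) : Conn src dst {x, y} := by
  intro Y hY hne hne'
  obtain ⟨hxy, e, he⟩ := h
  refine ⟨e, ?_⟩
  have hx : x ∈ Y ∨ y ∈ Y := by
    obtain ⟨z, hz⟩ := hne
    rcases mem_insert.1 (hY hz) with h | h
    · exact Or.inl (h ▸ hz)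
    · exact Or.inr (mem_singleton.1 h ▸ hz)
  have hnot : ¬ (x ∈ Y ∧ y ∈ Y) := by
    rintro ⟨h1, h2⟩
    apply hne'
    apply subset_antisymm hY
    intro z hz
    rcases mem_insert.1 hz with h | h
    · exact h ▸ h1
    · exact mem_singleton.1 h ▸ h2
  have hxm : x ∈ ({x, y} : Finset V) := mem_insert_self _ _
  have hym : y ∈ ({x, y} : Finset V) := mem_insert_of_mem (mem_singleton_self _)
  by_cases h1 : x ∈ Y
  · have h2 : y ∉ Y := fun h => hnot ⟨h1, h⟩
    rcases he with ⟨a, b⟩ | ⟨a, b⟩
    · exact Or.inl ⟨a ▸ h1, b ▸ hym, b ▸ h2⟩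
    · exact Or.inr ⟨b ▸ h1, a ▸ hym, a ▸ h2⟩
  · have h2 : y ∈ Y := hx.resolve_left h1
    rcases he with ⟨a, b⟩ | ⟨a, b⟩
    · exact Or.inr ⟨b ▸ h2, a ▸ hxm, a ▸ h1⟩
    · exact Or.inl ⟨a ▸ h2, b ▸ hxm, b ▸ h1⟩

/-- the vertices over `X` -/
def lift (u v : V) (X : Finset V) : Finset V := if u ∈ X then insert v X else X

theorem lift_conn {src dst : E → V} {e : E} (hne : src e ≠ dst e) {X : Finset V}
    (hv : dst e ∉ X) (h : Conn (ctr (src e) (dst e) ∘ src) (ctr (src e) (dst e) ∘ dst) X) :
    Conn src dst (lift (src e) (dst e) X) := by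
  set u := src e with hu
  set v := dst e with hvd
  -- the preimages
  have hpre : ∀ (Z : Finset V) (x : V), v ∉ Z → ctr u v x ∈ Z → x ∈ lift u v Z := by
    intro Z x hvZ hx
    unfold ctr at hx
    unfold lift
    split_ifs at hx with h
    · rw [if_pos hx, h]
      exact mem_insert_self _ _
    · split_ifs
      · exact mem_insert_of_mem hx
      · exact hx
  intro Y hY hYn hYX
  by_cases huv : (u ∈ Y ↔ v ∈ Y)
  · set Y' := Y.erase v with hY'
    have h1 : Y' ⊆ X := by
      intro x hx
      obtain ⟨hxv, hxY⟩ := mem_erase.1 hx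
      have := hY hxY
      unfold lift at this
      split_ifs at this with h
      · exact (mem_insert.1 this).resolve_left hxv
      · exact this
    have h2 : Y'.Nonempty := by
      by_cases hvY : v ∈ Y
      · exact ⟨u, mem_erase.2 ⟨hne, huv.2 hvY⟩⟩
      · obtain ⟨x, hx⟩ := hYn
        exact ⟨x, mem_erase.2 ⟨fun h => hvY (h ▸ hx), hx⟩⟩
    have h3 : Y' ≠ X := by
      intro h
      apply hYX
      unfold lift
      split_ifs with huX
      · have : u ∈ Y' := by rw [h]; exact huX
        have hvY : v ∈ Y := huv.1 (mem_of_mem_erase this)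
        rw [← h, hY', insert_erase hvY]
      · have hvY : v ∉ Y := by
          intro h'
          apply huX
          rw [← h]
          exact mem_erase.2 ⟨hne, huv.2 h'⟩
        rw [← h, hY', erase_eq_of_notMem hvY]
    -- membership in `Y`
    have hin : ∀ x, ctr u v x ∈ Y' → x ∈ Y := by
      intro x hx
      unfold ctr at hx
      split_ifs at hx with h
      · rw [h]
        exact huv.1 (mem_of_mem_erase hx)
      · exact mem_of_mem_erase hx
    have hout : ∀ x, ctr u v x ∉ Y' → x ∉ Y := by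
      intro x hx hxY
      apply hx
      unfold ctr
      split_ifs with h
      · rw [h] at hxY
        exact mem_erase.2 ⟨hne, huv.2 hxY⟩
      · exact mem_erase.2 ⟨h, hxY⟩
    obtain ⟨e', he'⟩ := h Y' h1 h2 h3
    refine ⟨e', ?_⟩
    rcases he' with ⟨a, b, c⟩ | ⟨a, b, c⟩
    · exact Or.inl ⟨hin _ a, hpre X _ hv b, hout _ c⟩
    · exact Or.inr ⟨hin _ a, hpre X _ hv b, hout _ c⟩
  · -- exactly one of the two ends of `e` is in `Y`
    refine ⟨e, ?_⟩
    have hmem : u ∈ X := by
      by_contra huX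
      have h1 : lift u v X = X := by unfold lift; rw [if_neg huX]
      rw [h1] at hY
      apply huv
      exact ⟨fun h => absurd (hY h) huX, fun h => absurd (hY h) hv⟩
    have h1 : u ∈ lift u v X := by unfold lift; rw [if_pos hmem]; exact mem_insert_of_mem hmem
    have h2 : v ∈ lift u v X := by unfold lift; rw [if_pos hmem]; exact mem_insert_self _ _
    by_cases huY : u ∈ Y
    · exact Or.inl ⟨huY, h2, fun h => huv ⟨fun _ => h, fun _ => huY⟩⟩
    · have hvY : v ∈ Y := by
        by_contra hvY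
        exact huv ⟨fun h => absurd h huY, fun h => absurd h hvY⟩
      exact Or.inr ⟨hvY, h1, huY⟩

theorem subset_lift (u v : V) (X : Finset V) : X ⊆ lift u v X := by
  unfold lift
  split_ifs
  · exact subset_insert _ _
  · exact subset_refl _

theorem big_notMem {src dst : E → V} {u v : V} (huv : u ≠ v) {X : Finset V}
    (h : Big (ctr u v ∘ src) (ctr u v ∘ dst) X) : v ∉ X := by
  intro hv
  obtain ⟨hc, x, hx, y, hy, hxy, -, -⟩ := h
  have h1 : ({v} : Finset V) ≠ X := by
    intro h
    rw [← h, mem_singleton] at hx hy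
    exact hxy (hx.trans hy.symm)
  obtain ⟨e, he⟩ := hc {v} (singleton_subset_iff.2 hv) (singleton_nonempty v) h1
  rcases he with ⟨a, -, -⟩ | ⟨a, -, -⟩
  · exact ctr_ne_v huv _ (mem_singleton.1 a)
  · exact ctr_ne_v huv _ (mem_singleton.1 a)

theorem lift_big {src dst : E → V} {e : E} (hne : src e ≠ dst e) {X : Finset V}
    (h : Big (ctr (src e) (dst e) ∘ src) (ctr (src e) (dst e) ∘ dst) X) :
    Big src dst (lift (src e) (dst e) X) := by
  have hv := big_notMem hne h
  obtain ⟨hc, x, hx, y, hy, hxy, hx3, hy3⟩ := h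
  refine ⟨lift_conn hne hv hc, ?_⟩
  have key : ∀ z ∈ X, 3 ≤ dg (ctr (src e) (dst e) ∘ src) (ctr (src e) (dst e) ∘ dst) z →
      ∃ z' ∈ lift (src e) (dst e) X, 3 ≤ dg src dst z' ∧ ctr (src e) (dst e) z' = z := by
    intro z hz h3
    by_cases hzu : z = src e
    · have h2 := Ord.dg_ctr_u src dst e hne
      rw [← hzu] at h2
      have h4 : 3 ≤ dg src dst (src e) ∨ 3 ≤ dg src dst (dst e) := by
        rw [hzu] at h2 h3
        omega
      rcases h4 with h4 | h4
      · refine ⟨src e, subset_lift _ _ _ (hzu ▸ hz), h4, ?_⟩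
        unfold ctr
        rw [if_neg hne, hzu]
      · refine ⟨dst e, ?_, h4, ?_⟩
        · unfold lift
          rw [if_pos (hzu ▸ hz)]
          exact mem_insert_self _ _
        · unfold ctr
          rw [if_pos rfl, hzu]
    · refine ⟨z, subset_lift _ _ _ hz, h3.trans (Ord.dg_ctr_other src dst hzu), ?_⟩
      unfold ctr
      rw [if_neg (fun h : z = dst e => hv (h ▸ hz))]
  obtain ⟨x', hx', hx'3, hxx⟩ := key x hx hx3
  obtain ⟨y', hy', hy'3, hyy⟩ := key y hy hy3
  refine ⟨x', hx', y', hy', ?_, hx'3, hy'3⟩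
  rintro rfl
  exact hxy (hxx.symm.trans hyy)

theorem mem_lift {u v x : V} {X : Finset V} (h : x ∈ lift u v X) : x ∈ X ∨ (x = v ∧ u ∈ X) := by
  unfold lift at h
  split_ifs at h with hu
  · rcases mem_insert.1 h with h | h
    · exact Or.inr ⟨h, hu⟩
    · exact Or.inl h
  · exact Or.inl h

theorem ccP (N : ℕ) : CC (V := V) (E := E) (ClP N) := by
  classical
  intro src dst e h hne F hF hd
  have hv : ∀ X ∈ F, dst e ∉ X := fun X hX => big_notMem hne (hF X hX)
  have hdis : ∀ X ∈ F, ∀ Y ∈ F, X ≠ Y →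
      Disjoint (lift (src e) (dst e) X) (lift (src e) (dst e) Y) := by
    intro X hX Y hY hXY
    have h1 := disjoint_left.1 (hd X hX Y hY hXY)
    rw [disjoint_left]
    intro x hx hy
    rcases mem_lift hx with a | ⟨a, b⟩
    · rcases mem_lift hy with c | ⟨c, _⟩
      · exact h1 a c
      · exact hv X hX (c ▸ a)
    · rcases mem_lift hy with c | ⟨_, d⟩
      · exact hv Y hY (a ▸ c)
      · exact h1 b d
  have hinj : Set.InjOn (lift (src e) (dst e)) (F : Set (Finset V)) := by
    intro X hX Y hY hXY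
    by_contra hne'
    have h1 := hdis X hX Y hY hne'
    rw [show lift (src e) (dst e) X = lift (src e) (dst e) Y from hXY] at h1
    have h2 := disjoint_self.1 h1
    obtain ⟨_, y, hy, _⟩ := hF Y hY
    have := subset_lift (src e) (dst e) Y hy
    rw [h2] at this
    exact absurd this (notMem_empty _)
  rw [← card_image_of_injOn hinj]
  refine h _ ?_ ?_
  · intro X hX
    obtain ⟨Y, hY, rfl⟩ := mem_image.1 hX
    exact lift_big hne (hF Y hY)
  · intro X hX Y hY hXY
    obtain ⟨X', hX', rfl⟩ := mem_image.1 hX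
    obtain ⟨Y', hY', rfl⟩ := mem_image.1 hY
    exact hdis X' hX' Y' hY' (fun h => hXY (by rw [h]))

end Pool.Agent.U659.MT
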